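import Pool.Agent.Helper904_QSG.ALL

/-!
# MP_177f55_an, Q1: quasi-symmetry of Laplace eigenfunctions on closed smooth surfaces.

The proof is explained in `Pool/Agent/Helper904_QS/PAPER.md`.
-/

set_option autoImplicit false

open MeasureTheory Set Bundle
open scoped ContDiff Manifold

open Pool.Agent.Helper904_QSG (IsEigenfunction)

/-- On every closed connected smooth Riemannian surface `M` there are constants `c, C > 0` such that
every Laplace eigenfunction `φ` with eigenvalue `lam > 0` satisfies
`c < μH[2] {φ > 0} / μH[2] {φ < 0} < C`.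
The surface is modelled on a real normed space `E` with a basis of two vectors, for instance
`EuclideanSpace ℝ (Fin 2)` with its standard basis. -/
theorem Pool.Agent.Results.MP_177f55_an.QuasiSymmetry.result
    (E : Type) [NormedAddCommGroup E] [NormedSpace ℝ E] (b : Module.Basis (Fin 2) ℝ E)
    (M : Type) [MetricSpace M] [ChartedSpace E M] [IsManifold 𝓘(ℝ, E) ∞ M]
    [RiemannianBundle (fun x : M => TangentSpace 𝓘(ℝ, E) x)]
    [IsContMDiffRiemannianBundle 𝓘(ℝ, E) ∞ E (fun x : M => TangentSpace 𝓘(ℝ, E) x)]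
    [IsRiemannianManifold 𝓘(ℝ, E) M] [CompactSpace M] [ConnectedSpace M]
    [MeasurableSpace M] [BorelSpace M] :
    ∃ c C : ℝ, 0 < c ∧ 0 < C ∧ ∀ (lam : ℝ) (φ : M → ℝ), 0 < lam → IsEigenfunction b lam φ →
      c < (μH[2] {x : M | 0 < φ x}).toReal / (μH[2] {x : M | φ x < 0}).toReal ∧
      (μH[2] {x : M | 0 < φ x}).toReal / (μH[2] {x : M | φ x < 0}).toReal < C :=
  Pool.Agent.Helper904_QSG.all_FIN E b M
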